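import Pool.Agent.PFD.StmtsD5b
import Pool.Agent.Helper43_AT3.QT2
import Pool.Agent.Helper9_PP.Add

/-!
# Squad PFD, row YAD: additivity of the alternating sum of `push p f`
-/

open scoped BigOperators

noncomputable section

namespace Pool.Agent.PFD.H64

open Pool.Agent.Helper51_AWC Pool.Agent.Helper79_WRA Pool.Agent.PP Pool.Agent.PP.KF
open Pool.Agent.PP.K9 Pool.Agent.PP.K9.H97 Pool.Agent.PP.H75 Pool.Agent.PP.T3 Pool.Agent.PP.T2

/-- YAD -/
theorem yad : YadStmt := by
  intro ℓ F _ hF N A _ _ _ _ p hp f hf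
  have : Fact ℓ.Prime := ⟨hF.prime⟩
  refine H46.idem_induction (fun f : N → F => (∀ c : N → F, IsBlk c → mulF f c = c →
    YY ℓ ⊤ (push p c) = 0) → YY ℓ ⊤ (push p f) = 0) ?_ ?_ ?_ f hf
  · intro _
    rw [push_zero]
    exact H67.YY_zero hF ⊤
  · intro b hb h
    exact h b hb hb.1.2
  · intro e₁ e₂ h1 h2 h12 p1 p2 h
    have h21 : mulF e₂ e₁ = 0 := by rw [← H46.mulF_comm h1.1, h12]
    have hd : ∀ f : N → F, mulF (e₁ + e₂) f = mulF e₁ f + mulF e₂ f := by
      intro f
      apply ma_injective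
      rw [ma_mul, ma_add, ma_add, ma_mul, ma_mul, add_mul]
    have hz : ∀ f : N → F, mulF (0 : N → F) f = 0 := by
      intro f
      apply ma_injective
      rw [ma_mul, ma_zero, zero_mul]
    have hp12 : mulF (push p e₁) (push p e₂) = 0 := by rw [← push_mulF, h12, push_zero]
    rw [T3.H43.push_add, H9.YY_add hF H94.nch H20.nls H20.brm H20.eig H20.ibf ⊤
      (push_isIdem hp h1) (push_isIdem hp h2) hp12, p1, p2, add_zero]
    · intro f hf hfe
      apply h f hf
      rw [hd, hfe]
      have : mulF e₁ f = 0 := by rw [← hfe, ← mulF_assoc, h12, hz]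
      rw [this, zero_add]
    · intro f hf hfe
      apply h f hf
      rw [hd, hfe]
      have : mulF e₂ f = 0 := by rw [← hfe, ← mulF_assoc, h21, hz]
      rw [this, add_zero]

end Pool.Agent.PFD.H64
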