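import Pool.Agent.PFD.StmtsD5a

/-!
# Squad PFD, row SPF: the fixed points of the inertial group
-/

namespace Pool.Agent.PFD.H64

open Pool.Agent.Helper51_AWC Pool.Agent.Helper79_WRA Pool.Agent.PP Pool.Agent.PP.KF
open Pool.Agent.PP.K9 Pool.Agent.PP.K9.H97 Pool.Agent.PP.H75 Pool.Agent.PP.T3 Pool.Agent.PP.T2

/-- the elements of the join of two commuting subgroups are products -/
lemma mem_join {G : Type} [Group G] {V U W : Subgroup G}
    (hab : ∀ a ∈ V, ∀ b ∈ V, a * b = b * a) (hU : U ≤ V) (hW : W ≤ V) (hj : U ⊔ W = V)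
    {v : G} (hv : v ∈ V) : ∃ u ∈ U, ∃ w ∈ W, v = u * w := by
  obtain ⟨S, hS⟩ : ∃ S : Subgroup G, ∀ x, x ∈ S ↔ ∃ u ∈ U, ∃ w ∈ W, x = u * w := by
    refine ⟨{ carrier := {x | ∃ u ∈ U, ∃ w ∈ W, x = u * w}
              mul_mem' := ?_
              one_mem' := ⟨1, U.one_mem, 1, W.one_mem, (one_mul 1).symm⟩
              inv_mem' := ?_ }, fun x => Iff.rfl⟩
    · rintro a b ⟨u, hu, w, hw, rfl⟩ ⟨u', hu', w', hw', rfl⟩
      refine ⟨u * u', U.mul_mem hu hu', w * w', W.mul_mem hw hw', ?_⟩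
      have h1 : w * u' = u' * w := hab w (hW hw) u' (hU hu')
      calc u * w * (u' * w') = u * (w * u') * w' := by group
        _ = u * (u' * w) * w' := by rw [h1]
        _ = u * u' * (w * w') := by group
    · rintro a ⟨u, hu, w, hw, rfl⟩
      refine ⟨u⁻¹, U.inv_mem hu, w⁻¹, W.inv_mem hw, ?_⟩
      have h1 : u * w = w * u := hab u (hU hu) w (hW hw)
      rw [h1, mul_inv_rev]
  have h1 : V ≤ S := by
    rw [← hj]
    refine sup_le (fun u hu => (hS u).2 ⟨u, hu, 1, W.one_mem, (mul_one u).symm⟩)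
      fun w hw => (hS w).2 ⟨1, U.one_mem, w, hw, (one_mul w).symm⟩
  exact (hS v).1 (h1 hv)

/-- SPF -/
theorem spf : SpfStmt := by
  intro ℓ F _ G _ _ e V γ hL U W hS t ht v hv htv
  obtain ⟨u, hu, w, hw, rfl⟩ := mem_join hL.ab hS.lu hS.lw hS.jn hv
  have h1 : (t * u * t⁻¹) * (t * w * t⁻¹) = u * w := by
    calc (t * u * t⁻¹) * (t * w * t⁻¹) = t * (u * w) * t⁻¹ := by group
      _ = u * w * t * t⁻¹ := by rw [htv]
      _ = u * w := by group
  have h2 : u⁻¹ * (t * u * t⁻¹) = w * (t * w * t⁻¹)⁻¹ := by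
    rw [eq_mul_inv_iff_mul_eq, mul_assoc, h1]
    group
  have h3 : u⁻¹ * (t * u * t⁻¹) ∈ U ⊓ W := by
    refine Subgroup.mem_inf.2 ⟨U.mul_mem (U.inv_mem hu) (hS.su t ht u hu), ?_⟩
    rw [h2]
    exact W.mul_mem hw (W.inv_mem (hS.sw t ht w hw))
  rw [hS.dj, Subgroup.mem_bot, inv_mul_eq_one] at h3
  by_cases hu1 : u = 1
  · right
    rw [hu1, one_mul]
    exact hw
  · left
    refine hS.fr t ht u hu hu1 ?_
    calc t * u = t * u * t⁻¹ * t := by group
      _ = u * t := by rw [← h3]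

end Pool.Agent.PFD.H64
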