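import Pool.Agent.PFD.StmtsD1

/-!
# Squad PFD, row SUM: the sum over the corners
-/

open scoped BigOperators

noncomputable section

namespace Pool.Agent.PFD.H64

open Pool.Agent.PFC.B1

section
variable {R B A I J N : Type} [CommRing R] [Ring B] [Algebra R B] [Ring A] [Algebra R A]
  [Fintype I] [Fintype J] [Fintype N]

/-- the sum over the four places -/
lemma w4_sum (D : Net R B A I J N) {v : B →ₗ[R] B} {De : B} (h : D.Der v De) (a b c e : B) :
    D.w4 v (I1 R B) (I1 R B) (I1 R B) a b c e + D.w4 (I1 R B) v (I1 R B) (I1 R B) a b c e +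
      D.w4 (I1 R B) (I1 R B) v (I1 R B) a b c e + D.w4 (I1 R B) (I1 R B) (I1 R B) v a b c e =
      - D.w4 (Lz R De) (I1 R B) (I1 R B) (I1 R B) a b c e := by
  unfold Net.w4
  simp only [LinearMap.id_coe, id_eq, LinearMap.mulLeft_apply]
  have h1 : v (a * b * c * e) = v a * b * c * e + a * v b * c * e + a * b * v c * e +
      a * b * c * v e := by
    rw [h.der, h.der, h.der]
    noncomm_ring
  have h2 := h.div (a * b * c * e)
  rw [h1, map_add, map_add, map_add, D.cs (a * b * c * e) De] at h2
  rw [h2]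
  simp only [mul_assoc]

/-- the sum over the six places -/
lemma w6_sum (D : Net R B A I J N) {v : B →ₗ[R] B} {De : B} (h : D.Der v De)
    (a b c e f g : B) :
    D.w6 v (I1 R B) (I1 R B) (I1 R B) (I1 R B) (I1 R B) a b c e f g +
      D.w6 (I1 R B) v (I1 R B) (I1 R B) (I1 R B) (I1 R B) a b c e f g +
      D.w6 (I1 R B) (I1 R B) v (I1 R B) (I1 R B) (I1 R B) a b c e f g +
      D.w6 (I1 R B) (I1 R B) (I1 R B) v (I1 R B) (I1 R B) a b c e f g +
      D.w6 (I1 R B) (I1 R B) (I1 R B) (I1 R B) v (I1 R B) a b c e f g +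
      D.w6 (I1 R B) (I1 R B) (I1 R B) (I1 R B) (I1 R B) v a b c e f g =
      - D.w6 (Lz R De) (I1 R B) (I1 R B) (I1 R B) (I1 R B) (I1 R B) a b c e f g := by
  unfold Net.w6
  simp only [LinearMap.id_coe, id_eq, LinearMap.mulLeft_apply]
  have h1 : v (a * b * c * e * f * g) = v a * b * c * e * f * g + a * v b * c * e * f * g +
      a * b * v c * e * f * g + a * b * c * v e * f * g + a * b * c * e * v f * g +
      a * b * c * e * f * v g := by
    rw [h.der, h.der, h.der, h.der, h.der]
    noncomm_ring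
  have h2 := h.div (a * b * c * e * f * g)
  rw [h1, map_add, map_add, map_add, map_add, map_add, D.cs (a * b * c * e * f * g) De] at h2
  rw [h2]
  simp only [mul_assoc]

lemma g6_add (D : Net R B A I J N) (W W' : B → B → B → B → B → B → R) :
    D.G6 W + D.G6 W' = D.G6 fun a b c e f g => W a b c e f g + W' a b c e f g := by
  unfold Net.G6
  simp only [← Finset.sum_add_distrib, add_mul]

lemma g6_neg (D : Net R B A I J N) (W : B → B → B → B → B → B → R) :
    - D.G6 W = D.G6 fun a b c e f g => - W a b c e f g := by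
  unfold Net.G6
  simp only [← Finset.sum_neg_distrib, neg_mul]

end

/-- SUM -/
theorem sum : SumStmt := by
  intro R B A I J N _ _ _ _ _ _ _ _ D v De h
  refine ⟨fun X X' Y Y' => ?_, ?_, ?_⟩
  · unfold Net.H4
    simp only [← Finset.sum_add_distrib, ← Finset.sum_neg_distrib]
    refine Finset.sum_congr rfl fun r _ => Finset.sum_congr rfl fun s _ =>
      Finset.sum_congr rfl fun i1 _ => Finset.sum_congr rfl fun i2 _ =>
      Finset.sum_congr rfl fun i3 _ => Finset.sum_congr rfl fun i4 _ => ?_
    rw [← add_mul, ← add_mul, ← add_mul, w4_sum D h, neg_mul]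
  · unfold Net.GB
    simp only [← Finset.sum_add_distrib, ← Finset.sum_neg_distrib]
    refine Finset.sum_congr rfl fun r _ => Finset.sum_congr rfl fun s _ =>
      Finset.sum_congr rfl fun i1 _ => Finset.sum_congr rfl fun i2 _ =>
      Finset.sum_congr rfl fun i3 _ => Finset.sum_congr rfl fun i4 _ =>
      Finset.sum_congr rfl fun k _ => ?_
    rw [← add_mul, ← add_mul, ← add_mul, w4_sum D h, neg_mul]
  · rw [g6_add, g6_add, g6_add, g6_add, g6_add, g6_neg]
    congr 1
    funext a b c e f g
    exact w6_sum D h a b c e f g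

end Pool.Agent.PFD.H64
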